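import Pool.Agent.Helper45.LinK.GoalsM
import Pool.Agent.Helper19.Lin.KACT
import Pool.Agent.Helper92.Orb.Torus
import Pool.Agent.Helper10.Abund.OpenSub

/-! # Packet KFM: an action on `D × ℂᵏ` with an invariant Kähler metric, in coordinates -/

open Complex Metric Set Filter Topology MeasureTheory
open scoped ContDiff ComplexConjugate ComplexOrder Manifold

namespace Pool.Agent.Helper83.LinK

open Pool.Agent.Helper45.LinK
open Pool.Agent.Helper95.Lin Pool.Agent.Helper16.Abund Pool.Agent.Helper92.Orb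
open Pool.Agent.Helper10.Abund (jac_open_comp mdifferentiable_val hasMFDerivAt_val)
open Pool.Agent.Helper19.Lin (closed_of_form mfderiv_of_val)

section Top

variable {b k : ℕ} {D : Set (Cn b)} (hD : IsOpen D)

/-- The point of `D × ℂᵏ` with given coordinates. -/
def ptK (v : Cn (b + k)) (hv : v ∈ tubeK D k) : TorTube hD k := (⟨v, hv⟩ : tube D hD k)

theorem tvK_pt (v : Cn (b + k)) (hv : v ∈ tubeK D k) : tvK (ptK hD v hv) = v := rfl

theorem tvK_mem (y : TorTube hD k) : tvK y ∈ tubeK D k := (y : tube D hD k).2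

theorem pt_tvK (y : TorTube hD k) : ptK hD (tvK y) (tvK_mem hD y) = y := rfl

theorem continuous_tvK : Continuous (tvK : TorTube hD k → Cn (b + k)) :=
  (continuous_subtype_val : Continuous (Subtype.val : tube D hD k → Cn (b + k)))

theorem inducing_tvK : Topology.IsInducing (tvK : TorTube hD k → Cn (b + k)) :=
  (Topology.IsInducing.subtypeVal : Topology.IsInducing
    (Subtype.val : tube D hD k → Cn (b + k)))

theorem compact_pre {S : Set (Cn (b + k))} (hS : IsCompact S) (hST : S ⊆ tubeK D k) :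
    IsCompact ((tvK : TorTube hD k → Cn (b + k)) ⁻¹' S) := by
  rw [(inducing_tvK hD).isCompact_preimage_iff]
  · exact hS
  · intro v hv
    exact ⟨ptK hD v (hST hv), tvK_pt hD v (hST hv)⟩

variable {Γ : Type} [Group Γ] [MulAction Γ (TorTube hD k)]

open Classical in
/-- The action in coordinates. -/
noncomputable def FK (γ : Γ) (v : Cn (b + k)) : Cn (b + k) :=
  if h : v ∈ tubeK D k then tvK (γ • ptK hD v h) else v

theorem FK_of (γ : Γ) {v : Cn (b + k)} (h : v ∈ tubeK D k) :
    FK hD γ v = tvK (γ • ptK hD v h) :=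
  dif_pos h

theorem FK_tvK (γ : Γ) (y : TorTube hD k) : FK hD γ (tvK y) = tvK (γ • y) := by
  rw [FK_of hD γ (tvK_mem hD y), pt_tvK]

/-- The identity. -/
def toK (y : tube D hD k) : TorTube hD k := y

theorem gAct_FK (hΓ : OrbAction (b + k) Γ (TorTube hD k)) :
    GAct (tubeK D k) (FK hD : Γ → Cn (b + k) → Cn (b + k)) where
  isOpen := (tube D hD k).isOpen
  holo γ := by
    have h1 : MDifferentiable 𝓘(ℂ, Fin (b + k) → ℂ) 𝓘(ℂ, Fin (b + k) → ℂ)
        (fun y : tube D hD k => tvK (γ • toK hD y)) :=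
      (mdifferentiable_val (tube D hD k)).comp (hΓ.holo γ)
    have h2 := (jac_open_comp (tube D hD k) h1 (ψ := FK hD γ) (fun y => FK_tvK hD γ y)).1
    exact mdifferentiableOn_iff_differentiableOn.1 h2
  maps γ v hv := by
    rw [FK_of hD γ hv]
    exact tvK_mem hD _
  one v hv := by
    rw [FK_of hD 1 hv, one_smul, tvK_pt]
  mul γ γ' v hv := by
    rw [FK_of hD _ hv, FK_of hD γ' hv, FK_tvK, mul_smul]

theorem continuous_append : Continuous (fun p : Cn b × Cn k => (Fin.append p.1 p.2 : Cn (b + k))) := by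
  refine continuous_pi fun i => ?_
  refine Fin.addCases (fun i => ?_) (fun i => ?_) i
  · simp only [Fin.append_left]
    fun_prop
  · simp only [Fin.append_right]
    fun_prop

theorem isConnected_tubeK (hDc : IsConnected D) : IsConnected (tubeK D k) := by
  have h1 : IsConnected (D ×ˢ (univ : Set (Cn k))) := hDc.prod isConnected_univ
  have h2 := h1.image (fun p : Cn b × Cn k => (Fin.append p.1 p.2 : Cn (b + k)))
    continuous_append.continuousOn
  convert h2 using 1
  ext v
  constructor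
  · intro hv
    refine ⟨(base v, fib v), ⟨hv, mem_univ _⟩, ?_⟩
    funext i
    refine Fin.addCases (fun i => ?_) (fun i => ?_) i
    · simp [base]
    · simp [fib]
  · rintro ⟨⟨z, w⟩, ⟨hz, -⟩, rfl⟩
    change base (Fin.append z w) ∈ D
    rw [base_append]
    exact hz

end Top

/-- **Packet KFM.** -/
theorem kfm : S_KFM := by
  intro b k D hD hDc Γ _ _ hΓ hprop h hh hinv
  classical
  have hG := gAct_FK (Γ := Γ) hD hΓ
  obtain ⟨z₁, hz₁⟩ := hDc.nonempty
  let y₁ : tube D hD k := ⟨Fin.append z₁ 0, by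
    change base (Fin.append z₁ 0) ∈ D
    rw [base_append]
    exact hz₁⟩
  obtain ⟨ψ, hψP, hψ, -⟩ := exists_extend hD y₁
  let h' : tube D hD k → Matrix (Fin (b + k)) (Fin (b + k)) ℂ := h
  have hpos : ∀ x, (h' x).PosDef := hh.1
  have hform : ∀ (V : Set (Fin (b + k) → ℂ)) (ψ : (Fin (b + k) → ℂ) → tube D hD k),
      HoloOn (b + k) ψ V → SmoothForm (b + k) (metricForm (b + k) h' ψ) V ∧
        ClosedForm (b + k) (metricForm (b + k) h' ψ) V := hh.2
  have hM : IsOpen (tubeK D k) := (tube D hD k).isOpen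
  have hψ' : HoloOn (b + k) ψ (tubeK D k) := ⟨hM, hψ⟩
  obtain ⟨hs, hc⟩ := hform _ _ hψ'
  have hψd : ∀ v ∈ tubeK D k,
      dmap (b + k) ψ v = ContinuousLinearMap.id ℂ (Fin (b + k) → ℂ) := by
    intro v hv
    have h1 : MDifferentiableAt 𝓘(ℂ, Fin (b + k) → ℂ) 𝓘(ℂ, Fin (b + k) → ℂ) ψ v :=
      hψ.mdifferentiableAt (hM.mem_nhds hv)
    have h2 := mfderiv_of_val (tube D hD k) h1
    have h3 : (fun y => (ψ y : Fin (b + k) → ℂ)) =ᶠ[𝓝 v] id := by
      filter_upwards [hM.mem_nhds hv] with w hw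
      have := hψP ⟨w, hw⟩
      rw [this]
      rfl
    rw [h3.mfderiv_eq] at h2
    unfold dmap
    rw [← h2]
    exact mfderiv_id
  let H : Cn (b + k) → Matrix (Fin (b + k)) (Fin (b + k)) ℂ := fun v => h' (ψ v)
  have hHp : ∀ x, (H x).PosDef := fun x => hpos _
  have hκ : ∀ x ∈ tubeK D k, ∀ u v, metricForm (b + k) h' ψ x u v = (herm (H x) u v).im := by
    intro x hx u v
    unfold metricForm dvec
    rw [hψd x hx]
    rfl
  obtain ⟨hsm, hcl⟩ := closed_of_form hM (fun x _ => (hHp x).1) hκ hs hc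
  refine ⟨FK hD, H, ⟨hG, isConnected_tubeK hDc, ?_, ?_, fun x _ => hHp x, hsm, hcl, ?_⟩,
    fun γ y => (FK_tvK hD γ y).symm, fun y => congrArg h' (hψP y)⟩
  · intro K hK hKc
    refine (hprop _ (compact_pre hD hKc hK)).subset ?_
    rintro γ ⟨x, hx, hFx⟩
    refine ⟨ptK hD x (hK hx), hx, ?_⟩
    change tvK (γ • ptK hD x (hK hx)) ∈ K
    rw [← FK_of hD γ (hK hx)]
    exact hFx
  · obtain ⟨K, hK, hKc⟩ := hΓ.cocompact
    refine ⟨tvK '' K, ?_, hK.image (continuous_tvK hD), ?_⟩
    · rintro _ ⟨y, -, rfl⟩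
      exact tvK_mem hD y
    · intro x hx
      obtain ⟨γ, hγ⟩ := hKc (ptK hD x hx)
      refine ⟨γ, γ • ptK hD x hx, hγ, ?_⟩
      rw [FK_of hD γ hx]
  · intro γ x hx u v
    let y : tube D hD k := ⟨x, hx⟩
    let sm : TorTube hD k → TorTube hD k := fun z => γ • z
    let T : tube D hD k → tube D hD k := sm
    have hTv : ∀ z : tube D hD k, (T z : Fin (b + k) → ℂ) = FK hD γ z.1 :=
      fun z => (FK_tvK hD γ z).symm
    have hinvT : ∀ (x : tube D hD k) (u v : Fin (b + k) → ℂ),
        herm (h' (T x)) (tvec (b + k) T x u) (tvec (b + k) T x v) = herm (h' x) u v := hinv γ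
    have hdT : DifferentiableAt ℂ (FK hD γ) x := (hG.holo γ).differentiableAt (hM.mem_nhds hx)
    have hTd : MDifferentiableAt 𝓘(ℂ, Fin (b + k) → ℂ) 𝓘(ℂ, Fin (b + k) → ℂ) T y :=
      (hΓ.holo γ) y
    have hcomp : (Subtype.val ∘ T) = FK hD γ ∘ (Subtype.val : tube D hD k → _) :=
      funext fun z => hTv z
    have hmf : tmap (b + k) T y = fderiv ℂ (FK hD γ) x := by
      have h1 := mfderiv_of_val (tube D hD k) hTd
      have h2 : (fun z => (T z : Fin (b + k) → ℂ)) =
          FK hD γ ∘ (Subtype.val : tube D hD k → (Fin (b + k) → ℂ)) := hcomp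
      rw [h2] at h1
      have h3 := mfderiv_comp y (I' := 𝓘(ℂ, Fin (b + k) → ℂ)) (g := FK hD γ)
        (f := (Subtype.val : tube D hD k → (Fin (b + k) → ℂ)))
        (mdifferentiableAt_iff_differentiableAt.mpr hdT) ((mdifferentiable_val (tube D hD k)) y)
      have h4 : mfderiv 𝓘(ℂ, Fin (b + k) → ℂ) 𝓘(ℂ, Fin (b + k) → ℂ)
        (Subtype.val : tube D hD k → (Fin (b + k) → ℂ)) y =
        ContinuousLinearMap.id ℂ (Fin (b + k) → ℂ) := (hasMFDerivAt_val (tube D hD k) y).mfderiv
      rw [h4, mfderiv_eq_fderiv] at h3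
      unfold tmap
      rw [← h1]
      exact h3
    have hHx : H x = h' y := congrArg h' (hψP y)
    have hHT : H (FK hD γ x) = h' (T y) := by
      have h1 : FK hD γ x = (T y).1 := (hTv y).symm
      rw [h1]
      exact congrArg h' (hψP (T y))
    have key := hinvT y u v
    unfold tvec at key
    rw [hmf] at key
    rw [hHx, hHT]
    exact key

end Pool.Agent.Helper83.LinK
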